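import Mathlib

namespace Pool.Agent.Results.MP_751e6a_co.Gap

open Pointwise

section
variable {n : ℕ} (P : Set (Fin n → ℝ))

/-- the integer point a lies in S -/
def In (a : Fin n → ℤ) (S : Set (Fin n → ℝ)) : Prop := (fun i => (a i : ℝ)) ∈ S

/-- normal lattice polytopes -/
def NormalLattice : Prop :=
  (∃ V : Finset (Fin n → ℤ), P = convexHull ℝ {x | ∃ v ∈ V, x = fun i => (v i : ℝ)}) ∧
  ∀ N : ℕ, 2 ≤ N → ∀ a, In a ((N : ℝ) • P) → ∃ f : Fin N → Fin n → ℤ, (∀ j, In (f j) P) ∧ a = ∑ j, f j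

/-- reduced P-degree of a in the N-th dilate -/
noncomputable def red (N : ℕ) (a : Fin n → ℤ) : ℕ :=
  sInf {r | 1 ≤ r ∧ r ≤ N ∧ ∃ a₀ a', a = a₀ + a' ∧ In a₀ ((r : ℝ) • interior P) ∧
    In a' (((N - r : ℕ) : ℝ) • P)}

/-- the attained reduced degrees -/
def degs : Set ℕ := {d | ∃ (N : ℕ) (a : Fin n → ℤ), 1 ≤ N ∧ In a ((N : ℝ) • interior P) ∧ red P N a = d}
end

def P : Set (Fin 5 → ℝ) := {x | (∀ i, 0 ≤ x i) ∧ x 0 ≤ 3 ∧ 2 * x 0 + x 1 + x 2 + x 3 + x 4 ≤ 7}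

lemma intP : interior P = {x | (∀ i, 0 < x i) ∧ x 0 < 3 ∧ 2 * x 0 + x 1 + x 2 + x 3 + x 4 < 7} := by
  apply le_antisymm
  · intro x hx
    have h : ∀ d : Fin 5 → ℝ, ∃ t : ℝ, 0 < t ∧ x + t • d ∈ P := fun d => by
      have c : Filter.Tendsto (fun t : ℝ => x + t • d) (nhdsWithin 0 (Set.Ioi 0)) (nhds x) := by
        refine tendsto_nhdsWithin_of_tendsto_nhds ?_
        simpa using (show Continuous fun t : ℝ => x + t • d by fun_prop).tendsto 0
      exact (eventually_mem_nhdsWithin.and (c.eventually (mem_interior_iff_mem_nhds.mp hx))).exists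
    obtain ⟨t, t0, -, h1, h2⟩ := h 1
    obtain ⟨s, s0, h3, -⟩ := h (-1)
    simp at h1 h2 h3
    exact ⟨fun i => s0.trans_le (h3 i), by linarith, by linarith⟩
  · refine interior_maximal (fun x h => ⟨fun i => (h.1 i).le, h.2.1.le, h.2.2.le⟩) ?_
    simp only [Set.ofPred_and, Set.ofPred_forall]
    exact (isOpen_iInter_of_finite fun i => isOpen_lt (by fun_prop) (by fun_prop)).inter
      ((isOpen_lt (by fun_prop) (by fun_prop)).inter (isOpen_lt (by fun_prop) (by fun_prop)))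

lemma inI (r : ℕ) (hr : 1 ≤ r) (a : Fin 5 → ℤ) : In a ((r : ℝ) • interior P) ↔
    (∀ i, 0 < a i) ∧ a 0 < 3 * r ∧ 2 * a 0 + a 1 + a 2 + a 3 + a 4 < 7 * r := by
  have r0 : (0 : ℝ) < r := by exact_mod_cast hr
  rw [In, Set.mem_smul_set_iff_inv_smul_mem₀ r0.ne', intP]
  simp only [Set.mem_ofPred_eq, Pi.smul_apply, smul_eq_mul, mul_left_comm _ (r : ℝ)⁻¹, ← mul_add,
    inv_mul_lt_iff₀ r0, mul_pos_iff_of_pos_left (inv_pos.mpr r0), mul_comm (r : ℝ)]
  norm_cast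

lemma inP (r : ℕ) (a : Fin 5 → ℤ) : In a ((r : ℝ) • P) ↔
    (∀ i, 0 ≤ a i) ∧ a 0 ≤ 3 * r ∧ 2 * a 0 + a 1 + a 2 + a 3 + a 4 ≤ 7 * r := by
  rcases r.eq_zero_or_pos with rfl | hr
  · rw [In, Nat.cast_zero, Set.zero_smul_set ⟨0, by simp [P]⟩]
    simp only [Set.mem_zero, funext_iff, Pi.zero_apply, Int.cast_eq_zero, Fin.forall_fin_succ,
      Fin.succ_zero_eq_one, Fin.succ_one_eq_two, Fin.reduceSucc, IsEmpty.forall_iff, and_true]
    omega
  have r0 : (0 : ℝ) < r := by exact_mod_cast hr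
  rw [In, Set.mem_smul_set_iff_inv_smul_mem₀ r0.ne']
  simp only [P, Set.mem_ofPred_eq, Pi.smul_apply, smul_eq_mul, mul_left_comm _ (r : ℝ)⁻¹, ← mul_add,
    inv_mul_le_iff₀ r0, mul_nonneg_iff_of_pos_left (inv_pos.mpr r0), mul_comm (r : ℝ)]
  norm_cast

lemma normal (N : ℕ) : ∀ a, In a ((N : ℝ) • P) →
    ∃ f : Fin N → Fin 5 → ℤ, (∀ j, In (f j) P) ∧ a = ∑ j, f j := by
  induction N with
  | zero =>
    intro a h
    rw [In, Nat.cast_zero, Set.zero_smul_set ⟨0, by simp [P]⟩] at h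
    exact ⟨0, by simp, funext fun i => by simpa using congrFun h i⟩
  | succ N ih =>
    intro a h
    rw [inP] at h
    obtain ⟨u, hu⟩ : ∃ u, u = min (a 0) 3 := ⟨_, rfl⟩
    obtain ⟨x, hx⟩ : ∃ x, x = min (a 1) (7 - 2 * u) := ⟨_, rfl⟩
    obtain ⟨y, hy⟩ : ∃ y, y = min (a 2) (7 - 2 * u - x) := ⟨_, rfl⟩
    obtain ⟨z, hz⟩ : ∃ z, z = min (a 3) (7 - 2 * u - x - y) := ⟨_, rfl⟩
    obtain ⟨w, hw⟩ : ∃ w, w = min (a 4) (7 - 2 * u - x - y - z) := ⟨_, rfl⟩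
    simp only [Fin.forall_fin_succ, Fin.succ_zero_eq_one, Fin.succ_one_eq_two, Fin.reduceSucc,
      IsEmpty.forall_iff] at h
    obtain ⟨f, h1, h2⟩ := ih (a - ![u, x, y, z, w]) (by
      rw [inP]; simp [Fin.forall_fin_succ]; omega)
    refine ⟨Fin.cons ![u, x, y, z, w] f, Fin.cases ?_ h1, by
      rw [Fin.sum_univ_succ]; exact eq_add_of_sub_eq' h2⟩
    have := (inP 1 ![u, x, y, z, w]).mpr (by simp [Fin.forall_fin_succ]; omega)
    simpa using this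

def V : Fin 10 → Fin 5 → ℤ := ![![0, 0, 0, 0, 0], ![0, 7, 0, 0, 0], ![0, 0, 7, 0, 0], ![0, 0, 0, 7, 0],
  ![0, 0, 0, 0, 7], ![3, 0, 0, 0, 0], ![3, 1, 0, 0, 0], ![3, 0, 1, 0, 0], ![3, 0, 0, 1, 0],
  ![3, 0, 0, 0, 1]]

lemma hull : P = convexHull ℝ {x | ∃ v ∈ Finset.univ.image V, x = fun i => (v i : ℝ)} := by
  apply le_antisymm
  · rintro x ⟨h0, h1, h2⟩
    have s0 : 0 < 7 - 2 * x 0 := by linarith
    have s1 : 7 - x 0 * 2 ≠ 0 := fun h => by linarith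
    let y : Fin 5 → ℝ := ![7 - 2 * x 0 - x 1 - x 2 - x 3 - x 4, x 1, x 2, x 3, x 4]
    have y0 : ∀ i, 0 ≤ y i := by
      intro i; fin_cases i <;> simp [y, h0]; linarith
    refine mem_convexHull_of_exists_fintype
      (Fin.append (m := 5) (n := 5) (fun i => (1 - x 0 / 3) * (y i / (7 - 2 * x 0)))
        fun i => x 0 / 3 * (y i / (7 - 2 * x 0))) (fun j i => (V j i : ℝ)) (fun j => ?_) ?_
      (fun j => ⟨V j, by simp, rfl⟩) ?_
    · refine Fin.addCases (m := 5) (n := 5) (fun i => ?_) (fun i => ?_) j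
      · rw [Fin.append_left]; exact mul_nonneg (by linarith) (div_nonneg (y0 i) s0.le)
      · rw [Fin.append_right]; exact mul_nonneg (by linarith [h0 0]) (div_nonneg (y0 i) s0.le)
    · simp [Fin.sum_univ_succ, Fin.append, Fin.addCases, y]; field_simp; ring
    · ext i
      fin_cases i <;> simp [Fin.sum_univ_succ, Fin.append, Fin.addCases, y, V] <;> field_simp <;> ring
  · refine convexHull_min ?_ ?_
    · rintro _ ⟨_, hv, rfl⟩
      obtain ⟨j, -, rfl⟩ := Finset.mem_image.mp hv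
      have := (inP 1 (V j)).mpr (by revert j; decide)
      simpa [In] using this
    · rintro x ⟨a, b, c⟩ y ⟨d, e, f⟩ s t hs ht hst
      refine ⟨fun i => add_nonneg (mul_nonneg hs (a i)) (mul_nonneg ht (d i)), ?_, ?_⟩ <;>
        simp <;> nlinarith

lemma redEq (N : ℕ) (a : Fin 5 → ℤ) (hN : 1 ≤ N) (h : In a ((N : ℝ) • interior P)) :
    red P N a = if a 0 + 1 < 3 * N then 1 else 3 := by
  rw [inI N hN] at h
  simp only [Fin.forall_fin_succ, Fin.succ_zero_eq_one, Fin.succ_one_eq_two, Fin.reduceSucc,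
    IsEmpty.forall_iff] at h
  refine IsLeast.csInf_eq ⟨⟨by split_ifs <;> omega, by split_ifs <;> omega, ?_⟩, ?_⟩
  · split_ifs
    · refine ⟨1, a - 1, by simp, (inI 1 le_rfl _).mpr (by simp), (inP _ _).mpr ?_⟩
      simp [Fin.forall_fin_succ]; omega
    · refine ⟨![8, 1, 1, 1, 1], a - ![8, 1, 1, 1, 1], (add_sub_cancel _ _).symm, (inI 3 (by omega) _).mpr (by decide),
        (inP _ _).mpr ?_⟩
      simp [Fin.forall_fin_succ]; omega
  · rintro r ⟨h1, h2, b, c, rfl, h3, h4⟩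
    rw [inI r h1] at h3
    rw [inP] at h4
    simp only [Fin.forall_fin_succ, Fin.succ_zero_eq_one, Fin.succ_one_eq_two, Fin.reduceSucc,
      IsEmpty.forall_iff, Pi.add_apply] at *
    split_ifs <;> omega

/-- A normal lattice polytope of int* degree 3 in which the reduced degree 2 does not occur. -/
theorem result : ∃ P : Set (Fin 5 → ℝ), NormalLattice P ∧ (∃ a, In a (interior P)) ∧
    IsGreatest (degs P) 3 ∧ 2 ∉ degs P := by
  refine ⟨P, ⟨⟨_, hull⟩, fun N _ => normal N⟩, ⟨1, by simpa using (inI 1 le_rfl 1).mpr (by simp)⟩,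
    ⟨⟨3, ![8, 1, 1, 1, 1], by omega, (inI 3 (by omega) _).mpr (by decide), ?_⟩, ?_⟩, ?_⟩
  · rw [redEq _ _ (by omega) ((inI 3 (by omega) _).mpr (by decide))]; decide
  · rintro d ⟨N, a, h1, h2, h3⟩
    rw [redEq _ _ h1 h2] at h3
    split_ifs at h3 <;> omega
  · rintro ⟨N, a, h1, h2, h3⟩
    rw [redEq _ _ h1 h2] at h3
    split_ifs at h3 <;> omega

end Pool.Agent.Results.MP_751e6a_co.Gap
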